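import Pool.Agent.D0H42.SF.Grp
import Pool.Agent.D0H41.SF.Basic

/-!
# Project SF (helper41), modules SN1, SN2, SN3: a congruence condition which forces `S_n`
-/

set_option autoImplicit false

namespace Pool.Agent.D0H42.SF

open Polynomial

lemma exists_irred (p : ℕ) [hp : Fact p.Prime] (d : ℕ) (hd : d ≠ 0) :
    ∃ h : (ZMod p)[X], h.Monic ∧ Irreducible h ∧ h.natDegree = d := by
  obtain ⟨α, hα⟩ := Field.exists_primitive_element (ZMod p) (GaloisField p d)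
  refine ⟨minpoly (ZMod p) α, minpoly.monic (Algebra.IsIntegral.isIntegral α),
    minpoly.irreducible (Algebra.IsIntegral.isIntegral α), ?_⟩
  rw [(Field.primitive_element_iff_minpoly_natDegree_eq (ZMod p) α).1 hα, GaloisField.finrank p hd]

lemma exists_shift (k : Type) [Field k] (n : ℕ) (hk : ((n + 1 : ℕ) : k) ≠ 0) (g : k[X])
    (hg : g.Monic) (hd : g.natDegree = n + 1) : ∃ s : k, (taylor s g).coeff n = 0 := by
  refine ⟨- g.coeff n / ((n + 1 : ℕ) : k), ?_⟩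
  rw [taylor_coeff]
  have h1 : (hasseDeriv n g).natDegree < 2 := by
    have := natDegree_hasseDeriv_le g n
    omega
  have h3 : g.coeff (1 + n) = 1 := by
    rw [add_comm, ← hd]
    exact hg.coeff_natDegree
  have h4 : (1 + n).choose n = n + 1 := by
    rw [add_comm]
    exact Nat.choose_succ_self_right n
  rw [eval_eq_sum_range' h1, Finset.sum_range_succ, Finset.sum_range_one, hasseDeriv_coeff,
    hasseDeriv_coeff, h3, h4, zero_add, Nat.choose_self, pow_zero, pow_one, mul_one, mul_one,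
    Nat.cast_one, one_mul, mul_div_cancel₀ _ hk]
  ring

lemma exA (p : ℕ) [hp : Fact p.Prime] (n : ℕ) (hn : 4 ≤ n) (hnp : n < p) :
    ∃ g : (ZMod p)[X], g.Monic ∧ g.natDegree = n ∧ g.coeff (n - 1) = 0 ∧ Irreducible g := by
  obtain ⟨h, hm, hi, hd⟩ := exists_irred p n (by omega)
  obtain ⟨m, rfl⟩ : ∃ m, n = m + 1 := ⟨n - 1, by omega⟩
  have hk : ((m + 1 : ℕ) : ZMod p) ≠ 0 := by
    rw [Ne, ZMod.natCast_eq_zero_iff]
    exact fun h => absurd (Nat.le_of_dvd (by omega) h) (by omega)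
  obtain ⟨s, hs⟩ := exists_shift (ZMod p) m hk h hm hd
  refine ⟨taylor s h, ?_, ?_, ?_, ?_⟩
  · rw [Monic, leadingCoeff_taylor]
    exact hm
  · rw [natDegree_taylor, hd]
  · exact hs
  · exact (MulEquiv.irreducible_iff (taylorEquiv s)).2 hi

lemma exB (p : ℕ) [hp : Fact p.Prime] (n : ℕ) (hn : 4 ≤ n) (hnp : n < p) :
    ∃ g : (ZMod p)[X], g.Monic ∧ g.natDegree = n ∧ g.coeff (n - 1) = 0 ∧ TB p g := by
  obtain ⟨h, hm, hi, hd⟩ := exists_irred p (n - 1) (by omega)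
  obtain ⟨m, rfl⟩ : ∃ m, n = m + 1 := ⟨n - 1, by omega⟩
  have hk : ((m + 1 : ℕ) : ZMod p) ≠ 0 := by
    rw [Ne, ZMod.natCast_eq_zero_iff]
    exact fun h => absurd (Nat.le_of_dvd (by omega) h) (by omega)
  have hm' : (X * h).Monic := monic_X.mul hm
  have hd' : (X * h).natDegree = m + 1 := by
    rw [monic_X.natDegree_mul hm, natDegree_X, hd]
    omega
  obtain ⟨s, hs⟩ := exists_shift (ZMod p) m hk _ hm' hd'
  refine ⟨taylor s (X * h), ?_, ?_, ?_, ?_⟩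
  · rw [Monic, leadingCoeff_taylor]
    exact hm'
  · rw [natDegree_taylor, hd']
  · exact hs
  · refine ⟨-s, taylor s h, (MulEquiv.irreducible_iff (taylorEquiv s)).2 hi, ?_, ?_⟩
    · rw [natDegree_taylor, hd]
      omega
    · rw [taylor_mul, taylor_X, C_neg, sub_neg_eq_add]

lemma exC (p : ℕ) [hp : Fact p.Prime] (n : ℕ) (hn : 4 ≤ n) (hnp : n < p) :
    ∃ g : (ZMod p)[X], g.Monic ∧ g.natDegree = n ∧ g.coeff (n - 1) = 0 ∧ TC p (n - 2) g := by
  obtain ⟨h, hm, hi, hd⟩ := exists_irred p 2 (by omega)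
  obtain ⟨m, rfl⟩ : ∃ m, n = m + 1 := ⟨n - 1, by omega⟩
  have hk : ((m + 1 : ℕ) : ZMod p) ≠ 0 := by
    rw [Ne, ZMod.natCast_eq_zero_iff]
    exact fun h => absurd (Nat.le_of_dvd (by omega) h) (by omega)
  let c : Fin (m + 1 - 2) → ZMod p := fun i => ((i : ℕ) : ZMod p)
  have hc : Function.Injective c := by
    intro i j hij
    have h1 : ((i : ℕ) : ZMod p) = ((j : ℕ) : ZMod p) := hij
    rw [ZMod.natCast_eq_natCast_iff', Nat.mod_eq_of_lt (by omega), Nat.mod_eq_of_lt (by omega)]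
      at h1
    exact Fin.ext h1
  have hmp : (∏ i, (X - C (c i)) : (ZMod p)[X]).Monic :=
    monic_prod_of_monic _ _ fun i _ => monic_X_sub_C _
  have hm' : (h * ∏ i, (X - C (c i))).Monic := hm.mul hmp
  have hd' : (h * ∏ i, (X - C (c i))).natDegree = m + 1 := by
    rw [hm.natDegree_mul hmp, hd, natDegree_prod_of_monic _ _ fun i _ => monic_X_sub_C _]
    simp only [natDegree_X_sub_C, Finset.sum_const, Finset.card_univ, Fintype.card_fin,
      smul_eq_mul, mul_one]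
    omega
  obtain ⟨s, hs⟩ := exists_shift (ZMod p) m hk _ hm' hd'
  refine ⟨taylor s (h * ∏ i, (X - C (c i))), ?_, ?_, ?_, ?_⟩
  · rw [Monic, leadingCoeff_taylor]
    exact hm'
  · rw [natDegree_taylor, hd']
  · exact hs
  · refine ⟨taylor s h, fun i => c i - s, (MulEquiv.irreducible_iff (taylorEquiv s)).2 hi, ?_, ?_,
      ?_⟩
    · rw [natDegree_taylor, hd]
    · intro i j hij
      exact hc (sub_left_injective hij)
    · rw [taylor_mul]
      congr 1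
      have h1 : taylorEquiv s (∏ i, (X - C (c i))) = ∏ i, taylorEquiv s (X - C (c i)) :=
        map_prod _ _ _
      refine h1.trans (Finset.prod_congr rfl fun i _ => ?_)
      change taylor s (X - C (c i)) = _
      rw [map_sub, taylor_X, taylor_C, C_sub]
      ring

lemma crt3 (p₁ p₂ p₃ : ℕ) (h1 : p₁.Prime) (h2 : p₂.Prime) (h3 : p₃.Prime) (h12 : p₁ ≠ p₂)
    (h13 : p₁ ≠ p₃) (h23 : p₂ ≠ p₃) (x₁ : ZMod p₁) (x₂ : ZMod p₂) (x₃ : ZMod p₃) :
    ∃ x : ℤ, (x : ZMod p₁) = x₁ ∧ (x : ZMod p₂) = x₂ ∧ (x : ZMod p₃) = x₃ := by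
  have : NeZero p₁ := ⟨h1.ne_zero⟩
  have : NeZero p₂ := ⟨h2.ne_zero⟩
  have : NeZero p₃ := ⟨h3.ne_zero⟩
  have c12 : Nat.Coprime p₁ p₂ := (Nat.coprime_primes h1 h2).2 h12
  have c13 : Nat.Coprime p₁ p₃ := (Nat.coprime_primes h1 h3).2 h13
  have c23 : Nat.Coprime p₂ p₃ := (Nat.coprime_primes h2 h3).2 h23
  obtain ⟨u, hu1, hu2⟩ := Nat.chineseRemainder c12 x₁.val x₂.val
  obtain ⟨v, hv1, hv2⟩ := Nat.chineseRemainder (Nat.Coprime.mul_left c13 c23) u x₃.val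
  refine ⟨(v : ℤ), ?_, ?_, ?_⟩
  · rw [Int.cast_natCast, (ZMod.natCast_eq_natCast_iff _ _ _).2 (hv1.of_mul_right p₂),
      (ZMod.natCast_eq_natCast_iff _ _ _).2 hu1, ZMod.natCast_zmod_val]
  · rw [Int.cast_natCast, (ZMod.natCast_eq_natCast_iff _ _ _).2 (hv1.of_mul_left p₁),
      (ZMod.natCast_eq_natCast_iff _ _ _).2 hu2, ZMod.natCast_zmod_val]
  · rw [Int.cast_natCast, (ZMod.natCast_eq_natCast_iff _ _ _).2 hv2, ZMod.natCast_zmod_val]

open Pool.Agent.D0H41.SF in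
lemma pol_map (p n : ℕ) [hp : Fact p.Prime] (hn : 2 ≤ n) (g : (ZMod p)[X]) (hg : g.Monic)
    (hd : g.natDegree = n) (hc : g.coeff (n - 1) = 0) (a : Fin (n - 1) → ℤ)
    (ha : ∀ i : Fin (n - 1), ((a i : ℤ) : ZMod p) = g.coeff (i : ℕ)) :
    (pol n a).map (Int.castRingHom (ZMod p)) = g := by
  have hm := pol_monic n hn a
  have hd' := pol_natDegree n hn a
  ext i
  rw [coeff_map]
  rcases lt_trichotomy i n with h | h | h
  · rcases Nat.lt_or_ge i (n - 1) with h1 | h1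
    · have h2 := pol_coeff n a ⟨i, h1⟩
      have h3 := ha ⟨i, h1⟩
      simp only at h2 h3
      rw [h2, ← h3]
      rfl
    · have h2 : i = n - 1 := by omega
      rw [h2, hc, pol_coeff_pred n hn a, map_zero]
  · subst h
    have h4 := hm.coeff_natDegree
    have h5 := hg.coeff_natDegree
    rw [hd'] at h4
    rw [hd] at h5
    rw [h4, h5, map_one]
  · rw [coeff_eq_zero_of_natDegree_lt (by omega), coeff_eq_zero_of_natDegree_lt (by omega),
      map_zero]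

open Pool.Agent.D0H41.SF in
/-- a congruence condition which forces the Galois group `S_n` -/
theorem t_SN : S_SN := by
  intro n hn
  obtain ⟨p₁, hp1, hP1⟩ := Nat.exists_infinite_primes (n + 1)
  obtain ⟨p₂, hp2, hP2⟩ := Nat.exists_infinite_primes (p₁ + 1)
  obtain ⟨p₃, hp3, hP3⟩ := Nat.exists_infinite_primes (p₂ + 1)
  have f1 : Fact p₁.Prime := ⟨hP1⟩
  have f2 : Fact p₂.Prime := ⟨hP2⟩
  have f3 : Fact p₃.Prime := ⟨hP3⟩
  obtain ⟨g₁, m1, d1, c1, t1⟩ := exA p₁ n hn (by omega)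
  obtain ⟨g₂, m2, d2, c2, t2⟩ := exB p₂ n hn (by omega)
  obtain ⟨g₃, m3, d3, c3, t3⟩ := exC p₃ n hn (by omega)
  choose a0 ha1 ha2 ha3 using fun i : Fin (n - 1) =>
    crt3 p₁ p₂ p₃ hP1 hP2 hP3 (by omega) (by omega) (by omega) (g₁.coeff (i : ℕ))
      (g₂.coeff (i : ℕ)) (g₃.coeff (i : ℕ))
  refine ⟨p₁ * p₂ * p₃, ?_, a0, ?_⟩
  · exact Nat.mul_pos (Nat.mul_pos hP1.pos hP2.pos) hP3.pos
  intro a ha
  have hcast : ∀ (p : ℕ), p ∣ p₁ * p₂ * p₃ → ∀ i, ((a i : ℤ) : ZMod p) = ((a0 i : ℤ) : ZMod p) := by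
    intro p hp i
    rw [← sub_eq_zero, ← Int.cast_sub, ZMod.intCast_zmod_eq_zero_iff_dvd]
    exact (Int.natCast_dvd_natCast.2 hp).trans (ha i)
  have e1 := pol_map p₁ n (by omega) g₁ m1 d1 c1 a (fun i => by
    rw [hcast p₁ ⟨p₂ * p₃, by ring⟩ i, ha1])
  have e2 := pol_map p₂ n (by omega) g₂ m2 d2 c2 a (fun i => by
    rw [hcast p₂ ⟨p₁ * p₃, by ring⟩ i, ha2])
  have e3 := pol_map p₃ n (by omega) g₃ m3 d3 c3 a (fun i => by
    rw [hcast p₃ ⟨p₁ * p₂, by ring⟩ i, ha3])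
  have hm := pol_monic n (by omega) a
  have hirrZ : Irreducible (pol n a) :=
    hm.irreducible_of_irreducible_map (Int.castRingHom (ZMod p₁)) _ (by rw [e1]; exact t1)
  have hirr : Irreducible (polQ n a) :=
    (hm.irreducible_iff_irreducible_map_fraction_map (K := ℚ)).1 hirrZ
  refine ⟨hirr, fun θ hθ => ?_⟩
  exact main_sym (pol n a) hm hirr p₂ p₃ (n - 2) (by rw [e2]; exact t2) (by rw [e3]; exact t3) θ hθ

end Pool.Agent.D0H42.SF
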