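import Mathlib

/-!
# Project SF (helper41), modules SN: Frobenius permutations of the roots of an integer polynomial
-/

set_option autoImplicit false

namespace Pool.Agent.D0H42.SF

open Polynomial NumberField

/-- a Frobenius element of a Galois number field -/
theorem exists_frob (L : Type) [Field L] [NumberField L] [IsGalois ℚ L] (p : ℕ)
    [hp : Fact p.Prime] : ∃ P : Ideal (𝓞 L), P.IsMaximal ∧ (p : 𝓞 L) ∈ P ∧ Finite (𝓞 L ⧸ P) ∧
      ∃ σ : Gal(L/ℚ), ∀ z : 𝓞 L, σ • z - z ^ p ∈ P := by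
  have hmax : (Ideal.span {(p : ℤ)}).IsMaximal := by
    apply PrincipalIdealRing.isMaximal_of_irreducible
    exact (Nat.prime_iff_prime_int.1 hp.out).irreducible
  obtain ⟨P, hP, hPl⟩ := Ideal.exists_maximal_ideal_liesOver_of_isIntegral (S := 𝓞 L)
    (Ideal.span {(p : ℤ)})
  have hpP : (p : 𝓞 L) ∈ P := by
    have h1 : (p : ℤ) ∈ P.under ℤ := by
      rw [← hPl.over]
      exact Ideal.mem_span_singleton_self _
    rw [Ideal.under_def, Ideal.mem_comap] at h1
    simpa using h1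
  have hP0 : P ≠ ⊥ := by
    rintro rfl
    rw [Ideal.mem_bot] at hpP
    exact hp.out.ne_zero (by exact_mod_cast hpP)
  have hfin : Finite (𝓞 L ⧸ P) := Ring.HasFiniteQuotients.finiteQuotient hP0
  refine ⟨P, hP, hpP, hfin, ?_⟩
  obtain ⟨σ, hσ⟩ := IsArithFrobAt.exists_of_isInvariant ℤ Gal(L/ℚ) P
  refine ⟨σ, fun z => ?_⟩
  have h2 := hσ z
  have h3 : Nat.card (ℤ ⧸ P.under ℤ) = p := by
    rw [← hPl.over, Nat.card_congr (Int.quotientSpanEquivZMod p).toEquiv, Nat.card_zmod,
      Int.natAbs_natCast]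
  rw [h3] at h2
  exact h2

/-- automorphisms of a subfield extend -/
theorem lift_aut {F L Ω : Type*} [Field F] [Field L] [Field Ω] [Algebra F L] [Algebra F Ω]
    [IsAlgClosure F Ω] (i : L →ₐ[F] Ω) (τ : L ≃ₐ[F] L) :
    ∃ τ' : Ω ≃ₐ[F] Ω, ∀ x, τ' (i x) = i (τ x) := by
  let _ : Algebra L Ω := i.toRingHom.toAlgebra
  have : IsScalarTower F L Ω := IsScalarTower.of_algebraMap_eq fun x => (i.commutes x).symm
  have : Normal F Ω := IsAlgClosure.normal F Ω
  refine ⟨τ.liftNormal Ω, fun x => ?_⟩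
  exact τ.liftNormal_commutes Ω x

theorem alg_inst : Algebra.IsAlgebraic ℚ (AlgebraicClosure ℚ) := by
  have h : (DivisionRing.toRatAlgebra : Algebra ℚ (AlgebraicClosure ℚ))
      = (AlgebraicClosure.instAlgebra ℚ : Algebra ℚ (AlgebraicClosure ℚ)) :=
    Subsingleton.elim _ _
  rw [h]
  exact AlgebraicClosure.isAlgebraic ℚ

theorem algcl_inst : IsAlgClosure ℚ (AlgebraicClosure ℚ) := ⟨inferInstance, alg_inst⟩

/-- the Frobenius permutation of the roots of an integer polynomial which is separable mod `p` -/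
theorem frob_roots (f : ℤ[X]) (hf : f.Monic) (n : ℕ) (α : Fin n → AlgebraicClosure ℚ)
    (hα : f.map (algebraMap ℤ (AlgebraicClosure ℚ)) = ∏ i, (X - C (α i)))
    (p : ℕ) [hp : Fact p.Prime] (hsep : (f.map (Int.castRingHom (ZMod p))).Separable) :
    ∃ (K : Type) (_ : Field K) (_ : Finite K) (_ : Algebra (ZMod p) K) (r : Fin n → K)
      (s : Equiv.Perm (Fin n)) (σ : AlgebraicClosure ℚ ≃ₐ[ℚ] AlgebraicClosure ℚ),
      Function.Injective r ∧
      (f.map (Int.castRingHom (ZMod p))).map (algebraMap (ZMod p) K) = ∏ i, (X - C (r i)) ∧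
      (∀ i, σ (α i) = α (s i)) ∧ ∀ i, r (s i) = r i ^ p := by
  classical
  set fQ : ℚ[X] := f.map (Int.castRingHom ℚ) with hfQ
  have hfQm : fQ.Monic := hf.map _
  have hfQα : fQ.map (algebraMap ℚ (AlgebraicClosure ℚ)) = ∏ i, (X - C (α i)) := by
    rw [← hα, hfQ, Polynomial.map_map]
    congr 1
  have hsp : (fQ.map (algebraMap ℚ (AlgebraicClosure ℚ))).Splits := IsAlgClosed.splits _
  let L := IntermediateField.adjoin ℚ (fQ.rootSet (AlgebraicClosure ℚ))
  have hspl : fQ.IsSplittingField ℚ L := IntermediateField.adjoin_rootSet_isSplittingField hsp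
  have hfd : FiniteDimensional ℚ L := IsSplittingField.finiteDimensional L fQ
  have hnf : NumberField L := ⟨⟩
  have hnor : Normal ℚ L := Normal.of_isSplittingField fQ
  have hgal : IsGalois ℚ L := { }
  have hev : ∀ i, eval (α i) (∏ j, (X - C (α j))) = 0 := by
    intro i
    rw [eval_prod]
    apply Finset.prod_eq_zero (Finset.mem_univ i)
    simp
  have hmem : ∀ i, α i ∈ L := by
    intro i
    apply IntermediateField.subset_adjoin
    rw [mem_rootSet]
    refine ⟨hfQm.ne_zero, ?_⟩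
    rw [aeval_def, ← eval_map, hfQα]
    exact hev i
  have hint : ∀ i, IsIntegral ℤ (⟨α i, hmem i⟩ : L) := by
    intro i
    refine ⟨f, hf, ?_⟩
    apply (algebraMap L (AlgebraicClosure ℚ)).injective
    rw [hom_eval₂, map_zero]
    have h1 : (algebraMap L (AlgebraicClosure ℚ)).comp (algebraMap ℤ L)
      = algebraMap ℤ (AlgebraicClosure ℚ) := RingHom.ext_int _ _
    rw [h1, ← eval_map, hα]
    exact hev i
  let a : Fin n → 𝓞 L := fun i => ⟨⟨α i, hmem i⟩, hint i⟩
  have hai : ∀ i, algebraMap L (AlgebraicClosure ℚ) (algebraMap (𝓞 L) L (a i)) = α i := fun i => rfl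
  have hfa : f.map (algebraMap ℤ (𝓞 L)) = ∏ i, (X - C (a i)) := by
    have hinj : Function.Injective ((algebraMap L (AlgebraicClosure ℚ)).comp
        (algebraMap (𝓞 L) L)) :=
      (algebraMap L (AlgebraicClosure ℚ)).injective.comp RingOfIntegers.coe_injective
    apply map_injective _ hinj
    rw [Polynomial.map_map, Polynomial.map_prod]
    have h1 : ((algebraMap L (AlgebraicClosure ℚ)).comp (algebraMap (𝓞 L) L)).comp
      (algebraMap ℤ (𝓞 L)) = algebraMap ℤ (AlgebraicClosure ℚ) := RingHom.ext_int _ _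
    rw [h1, hα]
    apply Finset.prod_congr rfl
    intro i _
    rw [Polynomial.map_sub, map_X, map_C]
    rfl
  obtain ⟨P, hP, hpP, hfin, τ, hτ⟩ := exists_frob L p
  let _ : Field (𝓞 L ⧸ P) := Ideal.Quotient.field P
  have hchar : CharP (𝓞 L ⧸ P) p := by
    apply (CharP.charP_iff_prime_eq_zero hp.out).mpr
    have h1 : (Ideal.Quotient.mk P) (p : 𝓞 L) = 0 := Ideal.Quotient.eq_zero_iff_mem.mpr hpP
    rwa [map_natCast] at h1
  let hA : Algebra (ZMod p) (𝓞 L ⧸ P) := ZMod.algebra (𝓞 L ⧸ P) p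
  let r : Fin n → 𝓞 L ⧸ P := fun i => Ideal.Quotient.mk P (a i)
  have hfr : (f.map (Int.castRingHom (ZMod p))).map (algebraMap (ZMod p) (𝓞 L ⧸ P))
      = ∏ i, (X - C (r i)) := by
    have h2 := congrArg (Polynomial.map (Ideal.Quotient.mk P)) hfa
    rw [Polynomial.map_map, Polynomial.map_prod] at h2
    rw [Polynomial.map_map]
    have h1 : (algebraMap (ZMod p) (𝓞 L ⧸ P)).comp (Int.castRingHom (ZMod p))
      = (Ideal.Quotient.mk P).comp (algebraMap ℤ (𝓞 L)) := RingHom.ext_int _ _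
    rw [h1, h2]
    apply Finset.prod_congr rfl
    intro i _
    rw [Polynomial.map_sub, map_X, map_C]
  have hrinj : Function.Injective r := by
    rw [← separable_prod_X_sub_C_iff, ← hfr]
    exact hsep.map
  have hτr : ∀ i, Ideal.Quotient.mk P (τ • a i) = r i ^ p := by
    intro i
    have h1 := hτ (a i)
    rw [← Ideal.Quotient.eq] at h1
    rw [h1, map_pow]
  -- the permutation
  have hex : ∀ i, ∃ j, τ • a i = a j := by
    intro i
    have h1 : eval (τ • a i) (f.map (algebraMap ℤ (𝓞 L))) = 0 := by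
      have h2 : eval (a i) (f.map (algebraMap ℤ (𝓞 L))) = 0 := by
        rw [hfa, eval_prod]
        exact Finset.prod_eq_zero (Finset.mem_univ i) (by simp)
      rw [eval_map] at h2 ⊢
      have h3 := congrArg (MulSemiringAction.toRingHom Gal(L/ℚ) (𝓞 L) τ) h2
      rw [hom_eval₂, map_zero] at h3
      have h4 : (MulSemiringAction.toRingHom Gal(L/ℚ) (𝓞 L) τ).comp (algebraMap ℤ (𝓞 L))
        = algebraMap ℤ (𝓞 L) := RingHom.ext_int _ _
      rw [h4] at h3
      exact h3
    rw [hfa, eval_prod, Finset.prod_eq_zero_iff] at h1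
    obtain ⟨j, _, hj⟩ := h1
    refine ⟨j, ?_⟩
    rw [eval_sub, eval_X, eval_C, sub_eq_zero] at hj
    exact hj
  choose s0 hs0 using hex
  have hs0r : ∀ i, r (s0 i) = r i ^ p := by
    intro i
    rw [← hτr, hs0]
  have hs0inj : Function.Injective s0 := by
    intro i j hij
    apply hrinj
    have h1 : r i ^ p = r j ^ p := by rw [← hs0r, ← hs0r, hij]
    exact frobenius_inj (𝓞 L ⧸ P) p h1
  have hacl : IsAlgClosure ℚ (AlgebraicClosure ℚ) := algcl_inst
  obtain ⟨σ, hσ⟩ := lift_aut L.val τ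
  refine ⟨𝓞 L ⧸ P, inferInstance, hfin, hA, r,
    Equiv.ofBijective s0 (Finite.injective_iff_bijective.mp hs0inj), σ, hrinj, hfr, ?_, ?_⟩
  · intro i
    have h1 := hσ ⟨α i, hmem i⟩
    have h5 : τ ⟨α i, hmem i⟩ = algebraMap (𝓞 L) L (a (s0 i)) := by
      rw [← hs0]
      rfl
    exact h1.trans (congrArg L.val h5)
  · intro i
    exact hs0r i

/-- two roots of an irreducible polynomial in a finite field are Frobenius conjugates -/
theorem frob_conj (p : ℕ) [hp : Fact p.Prime] (K : Type) [Field K] [Finite K] [Algebra (ZMod p) K]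
    (h : (ZMod p)[X]) (hi : Irreducible h) (x y : K) (hx : aeval x h = 0) (hy : aeval y h = 0) :
    ∃ k : ℕ, y = x ^ (p ^ k) := by
  have h1 := minpoly.eq_of_irreducible hi hx
  have h2 := minpoly.eq_of_irreducible hi hy
  have h3 : IsConjRoot (ZMod p) x y := h1.symm.trans h2
  obtain ⟨σ, hσ⟩ := isConjRoot_iff_exists_algEquiv.mp h3.symm
  obtain ⟨k, hk⟩ := (FiniteField.bijective_frobeniusAlgEquivOfAlgebraic_pow (ZMod p) K).2 σ
  refine ⟨k, ?_⟩
  rw [← hσ, ← hk]
  change (FiniteField.frobeniusAlgEquivOfAlgebraic (ZMod p) K ^ (k : ℕ)) x = _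
  rw [AlgEquiv.coe_pow, FiniteField.coe_frobeniusAlgEquivOfAlgebraic_iterate, ZMod.card]

end Pool.Agent.D0H42.SF
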