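import Pool.Agent.D0H42.SF.Frob

/-!
# Project SF (helper41), modules SN: the Galois group from three reductions
-/

set_option autoImplicit false

namespace Pool.Agent.D0H42.SF

open Polynomial

/-! ### Separability of the reductions -/

/-- type `B`: one linear factor, the rest irreducible -/
def TB (p : ℕ) (g : (ZMod p)[X]) : Prop :=
  ∃ (c : ZMod p) (h : (ZMod p)[X]), Irreducible h ∧ 2 ≤ h.natDegree ∧ g = (X - C c) * h

/-- type `C`: one irreducible quadratic factor, the rest distinct linear factors -/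
def TC (p m : ℕ) (g : (ZMod p)[X]) : Prop :=
  ∃ (h : (ZMod p)[X]) (c : Fin m → ZMod p), Irreducible h ∧ h.natDegree = 2 ∧
    Function.Injective c ∧ g = h * ∏ i, (X - C (c i))

lemma cop_lin (p : ℕ) [Fact p.Prime] (c : ZMod p) (h : (ZMod p)[X]) (hi : Irreducible h)
    (h2 : 2 ≤ h.natDegree) : IsCoprime (X - C c) h := by
  rw [(irreducible_X_sub_C c).coprime_iff_not_dvd, dvd_iff_isRoot]
  exact hi.not_isRoot_of_natDegree_ne_one (by omega)

lemma sepB (p : ℕ) [Fact p.Prime] (g : (ZMod p)[X]) (hg : TB p g) : g.Separable := by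
  obtain ⟨c, h, hi, h2, rfl⟩ := hg
  exact (separable_X_sub_C).mul (PerfectField.separable_of_irreducible hi) (cop_lin p c h hi h2)

lemma sepC (p m : ℕ) [Fact p.Prime] (g : (ZMod p)[X]) (hg : TC p m g) : g.Separable := by
  obtain ⟨h, c, hi, h2, hc, rfl⟩ := hg
  refine (PerfectField.separable_of_irreducible hi).mul (separable_prod_X_sub_C_iff.mpr hc) ?_
  apply IsCoprime.prod_right
  intro i _
  exact (cop_lin p (c i) h hi h2.ge).symm

/-! ### The permutations -/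

lemma pow_perm {n p : ℕ} {K : Type} [Field K] (r : Fin n → K) (s : Equiv.Perm (Fin n))
    (hs : ∀ i, r (s i) = r i ^ p) (k : ℕ) (i : Fin n) : r ((s ^ k) i) = r i ^ (p ^ k) := by
  induction k with
  | zero => simp
  | succ k ih =>
    rw [pow_succ', Equiv.Perm.mul_apply, hs, ih, ← pow_mul, pow_succ]

lemma fix_of_base {n p : ℕ} [Fact p.Prime] {K : Type} [Field K] [Algebra (ZMod p) K]
    (r : Fin n → K) (hr : Function.Injective r) (s : Equiv.Perm (Fin n))
    (hs : ∀ i, r (s i) = r i ^ p) (i : Fin n) (c : ZMod p) (hc : r i = algebraMap (ZMod p) K c) :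
    s i = i := by
  apply hr
  rw [hs, hc, ← map_pow, ZMod.pow_card]

lemma permB {n p : ℕ} [Fact p.Prime] {K : Type} [Field K] [Finite K] [Algebra (ZMod p) K]
    (g : (ZMod p)[X]) (hg : TB p g) (r : Fin n → K) (hr : Function.Injective r)
    (hgr : g.map (algebraMap (ZMod p) K) = ∏ i, (X - C (r i))) (s : Equiv.Perm (Fin n))
    (hs : ∀ i, r (s i) = r i ^ p) :
    ∃ i₀, s i₀ = i₀ ∧ ∀ i j, i ≠ i₀ → j ≠ i₀ → ∃ k : ℕ, (s ^ k) i = j := by
  obtain ⟨c, h, hi, h2, rfl⟩ := hg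
  have hroot : ∀ x : K, eval x (((X - C c) * h).map (algebraMap (ZMod p) K)) = 0 ↔
      ∃ i, x = r i := by
    intro x
    rw [hgr, eval_prod, Finset.prod_eq_zero_iff]
    simp only [Finset.mem_univ, true_and, eval_sub, eval_X, eval_C, sub_eq_zero]
  obtain ⟨i₀, hi₀⟩ := (hroot (algebraMap (ZMod p) K c)).1 (by simp)
  refine ⟨i₀, fix_of_base r hr s hs i₀ c hi₀.symm, ?_⟩
  have hh : ∀ i, i ≠ i₀ → aeval (r i) h = 0 := by
    intro i hne
    have h1 := (hroot (r i)).2 ⟨i, rfl⟩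
    rw [Polynomial.map_mul, eval_mul, mul_eq_zero] at h1
    rcases h1 with h1 | h1
    · exfalso
      rw [Polynomial.map_sub, map_X, map_C, eval_sub, eval_X, eval_C, sub_eq_zero, hi₀] at h1
      exact hne (hr h1)
    · rwa [eval_map] at h1
  intro i j hi' hj'
  obtain ⟨k, hk⟩ := frob_conj p K h hi (r i) (r j) (hh i hi') (hh j hj')
  refine ⟨k, hr ?_⟩
  rw [pow_perm r s hs, hk]

lemma permC {n p m : ℕ} [Fact p.Prime] {K : Type} [Field K] [Finite K] [Algebra (ZMod p) K]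
    (g : (ZMod p)[X]) (hg : TC p m g) (r : Fin n → K) (hr : Function.Injective r)
    (hgr : g.map (algebraMap (ZMod p) K) = ∏ i, (X - C (r i))) (s : Equiv.Perm (Fin n))
    (hs : ∀ i, r (s i) = r i ^ p) :
    ∃ i j, i ≠ j ∧ s i = j ∧ s j = i ∧ ∀ k, k ≠ i → k ≠ j → s k = k := by
  obtain ⟨h, c, hi, h2, hc, rfl⟩ := hg
  have hroot : ∀ x : K, eval x ((h * ∏ l, (X - C (c l))).map (algebraMap (ZMod p) K)) = 0 ↔
      ∃ i, x = r i := by
    intro x
    rw [hgr, eval_prod, Finset.prod_eq_zero_iff]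
    simp only [Finset.mem_univ, true_and, eval_sub, eval_X, eval_C, sub_eq_zero]
  -- each root is a root of `h` or in the base field
  have hor : ∀ i, aeval (r i) h = 0 ∨ ∃ l, r i = algebraMap (ZMod p) K (c l) := by
    intro i
    have h1 := (hroot (r i)).2 ⟨i, rfl⟩
    rw [Polynomial.map_mul, eval_mul, mul_eq_zero] at h1
    rcases h1 with h1 | h1
    · left
      rwa [eval_map] at h1
    · right
      rw [Polynomial.map_prod, eval_prod, Finset.prod_eq_zero_iff] at h1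
      obtain ⟨l, _, hl⟩ := h1
      refine ⟨l, ?_⟩
      rwa [Polynomial.map_sub, map_X, map_C, eval_sub, eval_X, eval_C, sub_eq_zero] at hl
  have hdvd : ∀ x : K, aeval x h = 0 → ∃ i, x = r i := by
    intro x hx
    apply (hroot x).1
    rw [Polynomial.map_mul, eval_mul, eval_map, ← aeval_def, hx, zero_mul]
  -- the two roots of `h`
  have hspl : (h.map (algebraMap (ZMod p) K)).Splits := by
    have h3 : ((h * ∏ l, (X - C (c l))).map (algebraMap (ZMod p) K)).Splits := by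
      rw [hgr]
      exact Splits.prod fun i _ => Splits.X_sub_C _
    refine h3.of_dvd ?_ ?_
    · rw [hgr]
      exact (monic_prod_of_monic _ _ fun i _ => monic_X_sub_C _).ne_zero
    · rw [Polynomial.map_mul]
      exact dvd_mul_right _ _
  have hcard : Fintype.card (h.rootSet K) = 2 := by
    rw [card_rootSet_eq_natDegree (PerfectField.separable_of_irreducible hi) hspl, h2]
  have hcard' : Nat.card (h.rootSet K) = 2 := by rw [Nat.card_eq_fintype_card, hcard]
  obtain ⟨x, y, hxy, hU⟩ := Set.ncard_eq_two.mp (show (h.rootSet K).ncard = 2 from hcard')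
  have hx : aeval x h = 0 := by
    have : x ∈ h.rootSet K := by rw [hU]; simp
    exact (mem_rootSet.mp this).2
  have hy : aeval y h = 0 := by
    have : y ∈ h.rootSet K := by rw [hU]; simp
    exact (mem_rootSet.mp this).2
  have hxy' : ∀ z : K, aeval z h = 0 → z = x ∨ z = y := by
    intro z hz
    have h4 : z ∈ h.rootSet K := mem_rootSet.mpr ⟨hi.ne_zero, hz⟩
    rw [hU] at h4
    simpa using h4
  obtain ⟨i, rfl⟩ := hdvd x hx
  obtain ⟨j, rfl⟩ := hdvd y hy
  have hij : i ≠ j := fun h => hxy (by rw [h])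
  have hfix : ∀ k, k ≠ i → k ≠ j → s k = k := by
    intro k hki hkj
    rcases hor k with h1 | ⟨l, hl⟩
    · rcases hxy' _ h1 with h1 | h1
      · exact absurd (hr h1) hki
      · exact absurd (hr h1) hkj
    · exact fix_of_base r hr s hs k (c l) hl
  have hnf : ∀ i j, i ≠ j → aeval (r i) h = 0 → aeval (r j) h = 0 → s i ≠ i := by
    intro i j hij hx hy hsi
    obtain ⟨k, hk⟩ := frob_conj p K h hi (r i) (r j) hx hy
    rw [← pow_perm r s hs k i] at hk
    have h5 : (s ^ k) i = i := by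
      induction k with
      | zero => rfl
      | succ k ih =>
        clear hk
        have h6 : (s ^ k) i = i := by
          clear ih
          induction k with
          | zero => rfl
          | succ k ih => rw [pow_succ', Equiv.Perm.mul_apply, ih, hsi]
        rw [pow_succ', Equiv.Perm.mul_apply, h6, hsi]
    rw [h5] at hk
    exact hij (hr hk).symm
  have hsi : s i = j := by
    by_contra hne
    have h1 := hnf i j hij hx hy
    have h2 := hfix (s i) h1 hne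
    exact h1 (s.injective h2)
  have hsj : s j = i := by
    by_contra hne
    have h1 := hnf j i hij.symm hy hx
    have h2 := hfix (s j) hne h1
    exact h1 (s.injective h2)
  exact ⟨i, j, hij, hsi, hsj, hfix⟩

/-! ### Symmetric groups -/

section sym

variable {F Ω : Type} [Field F] [Field Ω] [Algebra F Ω]

/-- the action of the automorphisms on the embeddings -/
def rho (L : IntermediateField F Ω) : (Ω ≃ₐ[F] Ω) →* Equiv.Perm (L →ₐ[F] Ω) where
  toFun σ :=
    { toFun := fun φ => σ.toAlgHom.comp φ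
      invFun := fun φ => σ.symm.toAlgHom.comp φ
      left_inv := fun φ => by
        ext x
        exact σ.symm_apply_apply (φ x)
      right_inv := fun φ => by
        ext x
        exact σ.apply_symm_apply (φ x) }
  map_one' := by
    ext φ x
    rfl
  map_mul' σ τ := by
    ext φ x
    rfl

theorem rho_apply (L : IntermediateField F Ω) (σ : Ω ≃ₐ[F] Ω) (φ : L →ₐ[F] Ω) :
    rho L σ φ = σ.toAlgHom.comp φ := rfl

theorem sym_of (L : IntermediateField F Ω) [FiniteDimensional F L]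
    (h2 : ∀ φ ψ φ' ψ' : L →ₐ[F] Ω, φ ≠ ψ → φ' ≠ ψ' →
      ∃ σ : Ω ≃ₐ[F] Ω, σ.toAlgHom.comp φ = φ' ∧ σ.toAlgHom.comp ψ = ψ')
    (hs : ∃ (σ : Ω ≃ₐ[F] Ω) (φ ψ : L →ₐ[F] Ω),
      φ ≠ ψ ∧ σ.toAlgHom.comp φ = ψ ∧ σ.toAlgHom.comp ψ = φ ∧
      ∀ χ : L →ₐ[F] Ω, χ ≠ φ → χ ≠ ψ → σ.toAlgHom.comp χ = χ) :
    ∀ τ : Equiv.Perm (L →ₐ[F] Ω), ∃ σ : Ω ≃ₐ[F] Ω, ∀ φ : L →ₐ[F] Ω,
      τ φ = σ.toAlgHom.comp φ := by
  classical
  obtain ⟨σ, φ, ψ, hne, e1, e2, e3⟩ := hs
  have hsw : rho L σ = Equiv.swap φ ψ := by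
    apply Equiv.ext
    intro χ
    rw [rho_apply]
    by_cases hφ : χ = φ
    · rw [hφ, e1, Equiv.swap_apply_left]
    · by_cases hψ : χ = ψ
      · rw [hψ, e2, Equiv.swap_apply_right]
      · rw [e3 χ hφ hψ, Equiv.swap_apply_of_ne_of_ne hφ hψ]
  have hall : ∀ τ : Equiv.Perm (L →ₐ[F] Ω), τ.IsSwap → τ ∈ (rho L).range := by
    rintro τ ⟨φ', ψ', hne', rfl⟩
    obtain ⟨u, hu1, hu2⟩ := h2 φ ψ φ' ψ' hne hne'
    refine ⟨u * σ * u⁻¹, ?_⟩
    rw [map_mul, map_mul, map_inv, hsw]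
    have k1 : rho L u φ = φ' := hu1
    have k2 : rho L u ψ = ψ' := hu2
    rw [← k1, ← k2]
    exact (Equiv.swap_apply_apply (rho L u) φ ψ).symm
  have htop : (rho L).range = ⊤ := by
    rw [eq_top_iff, ← Equiv.Perm.closure_isSwap, Subgroup.closure_le]
    exact fun τ hτ => hall τ hτ
  intro τ
  have hτ : τ ∈ (rho L).range := by rw [htop]; trivial
  obtain ⟨u, hu⟩ := hτ
  exact ⟨u, fun χ => by rw [← hu]; rfl⟩

end sym

/-! ### The three reductions force the symmetric group -/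

lemma roots_fam {F N : Type} [Field F] [CharZero F] [Field N] [Algebra F N] (p : F[X]) (n : ℕ)
    (hm : p.Monic) (hd : p.natDegree = n) (hirr : Irreducible p)
    (hs : (p.map (algebraMap F N)).Splits) :
    ∃ α : Fin n → N, Function.Injective α ∧ p.map (algebraMap F N) = ∏ i, (X - C (α i)) := by
  classical
  have hmon : (p.map (algebraMap F N)).Monic := hm.map _
  have hnd : (p.map (algebraMap F N)).roots.Nodup := nodup_roots (hirr.separable.map)
  obtain ⟨S, hS⟩ : ∃ S : Finset N, S = (p.map (algebraMap F N)).roots.toFinset := ⟨_, rfl⟩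
  have hSv : S.val = (p.map (algebraMap F N)).roots := by
    rw [hS, Multiset.toFinset_val, Multiset.dedup_eq_self.2 hnd]
  have hcard : S.card = n := by
    rw [Finset.card_def, hSv, ← hs.natDegree_eq_card_roots, natDegree_map, hd]
  let e : Fin n ≃ S := (S.equivFinOfCardEq hcard).symm
  refine ⟨fun k => (e k : N), fun a b h => e.injective (Subtype.ext h), ?_⟩
  have h1 := hs.eq_prod_roots_of_monic hmon
  rw [← hSv] at h1
  have h2 : (S.val.map (fun x => X - C x)).prod = ∏ a ∈ S, (X - C a) := rfl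
  rw [h1, h2, ← Finset.prod_coe_sort S (fun a => (X - C a : N[X]))]
  exact (Equiv.prod_comp e (fun a : S => (X - C (a : N) : N[X]))).symm

theorem main_sym (f : ℤ[X]) (hf : f.Monic)
    (hirr : Irreducible (f.map (Int.castRingHom ℚ))) (p₂ p₃ m : ℕ) [Fact p₂.Prime]
    [Fact p₃.Prime] (h2 : TB p₂ (f.map (Int.castRingHom (ZMod p₂))))
    (h3 : TC p₃ m (f.map (Int.castRingHom (ZMod p₃)))) (θ : AlgebraicClosure ℚ)
    (hθ : aeval θ f = 0) :
    ∀ τ : Equiv.Perm (IntermediateField.adjoin ℚ {θ} →ₐ[ℚ] AlgebraicClosure ℚ),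
      ∃ σ : AlgebraicClosure ℚ ≃ₐ[ℚ] AlgebraicClosure ℚ,
        ∀ φ : IntermediateField.adjoin ℚ {θ} →ₐ[ℚ] AlgebraicClosure ℚ,
          τ φ = σ.toAlgHom.comp φ := by
  classical
  have hacl : IsAlgClosure ℚ (AlgebraicClosure ℚ) := algcl_inst
  have hnor : Normal ℚ (AlgebraicClosure ℚ) := IsAlgClosure.normal ℚ _
  obtain ⟨fQ, hfQ⟩ : ∃ fQ : ℚ[X], fQ = f.map (Int.castRingHom ℚ) := ⟨_, rfl⟩
  rw [← hfQ] at hirr
  have hfQm : fQ.Monic := by rw [hfQ]; exact hf.map _
  obtain ⟨α, hαi, hα⟩ := roots_fam fQ fQ.natDegree hfQm rfl hirr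
    (IsAlgClosed.splits (fQ.map (algebraMap ℚ (AlgebraicClosure ℚ))))
  have hfα : f.map (algebraMap ℤ (AlgebraicClosure ℚ)) = ∏ i, (X - C (α i)) := by
    rw [← hα, hfQ, Polynomial.map_map]
    congr 1
  have hrt : ∀ z : AlgebraicClosure ℚ, aeval z f = 0 ↔ ∃ i, z = α i := by
    intro z
    rw [← eval_map_algebraMap, hfα, eval_prod, Finset.prod_eq_zero_iff]
    simp only [Finset.mem_univ, true_and, eval_sub, eval_X, eval_C, sub_eq_zero]
  have hrQ : ∀ z : AlgebraicClosure ℚ, aeval z f = 0 ↔ aeval z fQ = 0 := by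
    intro z
    rw [hfQ, ← algebraMap_int_eq, aeval_map_algebraMap]
  have hmin : ∀ z : AlgebraicClosure ℚ, aeval z f = 0 → minpoly ℚ z = fQ := fun z hz =>
    (minpoly.eq_of_irreducible_of_monic hirr ((hrQ z).1 hz) hfQm).symm
  have htr : ∀ i j, ∃ σ : AlgebraicClosure ℚ ≃ₐ[ℚ] AlgebraicClosure ℚ, σ (α i) = α j := by
    intro i j
    have h1 : IsConjRoot ℚ (α j) (α i) :=
      (hmin _ ((hrt _).2 ⟨j, rfl⟩)).trans (hmin _ ((hrt _).2 ⟨i, rfl⟩)).symm
    exact isConjRoot_iff_exists_algEquiv.mp h1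
  -- the image of a root
  have him : ∀ (σ : AlgebraicClosure ℚ ≃ₐ[ℚ] AlgebraicClosure ℚ) (i), ∃ j, σ (α i) = α j := by
    intro σ i
    apply (hrt _).1
    rw [hrQ, aeval_algEquiv, AlgHom.comp_apply, (hrQ _).1 ((hrt _).2 ⟨i, rfl⟩)]
    exact map_zero _
  obtain ⟨K₂, _, _, _, r₂, s₂, σ₂, hr₂, hgr₂, hσ₂, hs₂⟩ := frob_roots f hf _ α hfα p₂ (sepB _ _ h2)
  obtain ⟨K₃, _, _, _, r₃, s₃, σ₃, hr₃, hgr₃, hσ₃, hs₃⟩ :=
    frob_roots f hf _ α hfα p₃ (sepC _ _ _ h3)
  obtain ⟨i₀, hi₀, hB⟩ := permB _ h2 r₂ hr₂ hgr₂ s₂ hs₂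
  obtain ⟨i₁, j₁, hij₁, hC1, hC2, hC3⟩ := permC _ h3 r₃ hr₃ hgr₃ s₃ hs₃
  have hpow : ∀ (k : ℕ) i, (σ₂ ^ k) (α i) = α ((s₂ ^ k) i) := by
    intro k
    induction k with
    | zero => intro i; rfl
    | succ k ih =>
      intro i
      rw [pow_succ', pow_succ', AlgEquiv.mul_apply, Equiv.Perm.mul_apply, ih, hσ₂]
  have hfixk : ∀ k : ℕ, (s₂ ^ k) i₀ = i₀ := by
    intro k
    induction k with
    | zero => rfl
    | succ k ih => rw [pow_succ', Equiv.Perm.mul_apply, ih, hi₀]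
  -- double transitivity
  have hdt : ∀ i j i' j', i ≠ j → i' ≠ j' →
      ∃ σ : AlgebraicClosure ℚ ≃ₐ[ℚ] AlgebraicClosure ℚ, σ (α i) = α i' ∧ σ (α j) = α j' := by
    intro i j i' j' hij hij'
    obtain ⟨τ, hτ⟩ := htr i i₀
    obtain ⟨τ', hτ'⟩ := htr i' i₀
    obtain ⟨u, hu⟩ := him τ j
    obtain ⟨v, hv⟩ := him τ' j'
    have hu0 : u ≠ i₀ := by
      rintro rfl
      apply hij
      apply hαi
      apply τ.injective
      rw [hτ, hu]
    have hv0 : v ≠ i₀ := by
      rintro rfl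
      apply hij'
      apply hαi
      apply τ'.injective
      rw [hτ', hv]
    obtain ⟨k, hk⟩ := hB u v hu0 hv0
    refine ⟨τ'.symm * (σ₂ ^ k) * τ, ?_, ?_⟩
    · rw [AlgEquiv.mul_apply, AlgEquiv.mul_apply, hτ, hpow, hfixk, ← hτ', AlgEquiv.symm_apply_apply]
    · rw [AlgEquiv.mul_apply, AlgEquiv.mul_apply, hu, hpow, hk, ← hv, AlgEquiv.symm_apply_apply]
  obtain ⟨iθ, hiθ⟩ := (hrt θ).1 hθ
  have hθint : IsIntegral ℚ θ := ⟨fQ, hfQm, by rw [← aeval_def]; exact (hrQ θ).1 hθ⟩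
  have hfd : FiniteDimensional ℚ (IntermediateField.adjoin ℚ {θ}) :=
    IntermediateField.adjoin.finiteDimensional hθint
  let g : IntermediateField.adjoin ℚ {θ} := IntermediateField.AdjoinSimple.gen ℚ θ
  have hg : ∀ φ : IntermediateField.adjoin ℚ {θ} →ₐ[ℚ] AlgebraicClosure ℚ, ∃ i, φ g = α i := by
    intro φ
    apply (hrt _).1
    rw [hrQ]
    have h1 : aeval g fQ = 0 := by
      apply (algebraMap (IntermediateField.adjoin ℚ {θ}) (AlgebraicClosure ℚ)).injective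
      rw [map_zero, ← aeval_algebraMap_apply]
      exact (hrQ θ).1 hθ
    rw [aeval_algHom_apply, h1, map_zero]
  have hext : ∀ φ ψ : IntermediateField.adjoin ℚ {θ} →ₐ[ℚ] AlgebraicClosure ℚ, φ g = ψ g →
      φ = ψ := by
    intro φ ψ h
    apply IntermediateField.algHom_ext_of_eq_adjoin ℚ rfl
    intro x hx
    rw [Set.mem_singleton_iff] at hx
    subst hx
    exact h
  have hemb : ∀ i, ∃ φ : IntermediateField.adjoin ℚ {θ} →ₐ[ℚ] AlgebraicClosure ℚ, φ g = α i := by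
    intro i
    obtain ⟨τ, hτ⟩ := htr iθ i
    refine ⟨τ.toAlgHom.comp (IntermediateField.adjoin ℚ {θ}).val, ?_⟩
    change τ θ = α i
    rw [hiθ, hτ]
  apply sym_of
  · intro φ ψ φ' ψ' h1 h2
    obtain ⟨i, hi⟩ := hg φ
    obtain ⟨j, hj⟩ := hg ψ
    obtain ⟨i', hi'⟩ := hg φ'
    obtain ⟨j', hj'⟩ := hg ψ'
    obtain ⟨σ, e1, e2⟩ := hdt i j i' j' (fun h => h1 (hext _ _ (by rw [hi, hj, h])))
      (fun h => h2 (hext _ _ (by rw [hi', hj', h])))
    refine ⟨σ, hext _ _ ?_, hext _ _ ?_⟩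
    · exact (congrArg σ hi).trans (e1.trans hi'.symm)
    · exact (congrArg σ hj).trans (e2.trans hj'.symm)
  · obtain ⟨φ, hφ⟩ := hemb i₁
    obtain ⟨ψ, hψ⟩ := hemb j₁
    refine ⟨σ₃, φ, ψ, ?_, hext _ _ ?_, hext _ _ ?_, ?_⟩
    · rintro rfl
      exact hij₁ (hαi (hφ.symm.trans hψ))
    · exact (congrArg σ₃ hφ).trans ((hσ₃ i₁).trans ((congrArg α hC1).trans hψ.symm))
    · exact (congrArg σ₃ hψ).trans ((hσ₃ j₁).trans ((congrArg α hC2).trans hφ.symm))
    · intro χ h1 h2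
      obtain ⟨k, hk⟩ := hg χ
      apply hext
      have h3 : s₃ k = k := hC3 k (fun h => h1 (hext _ _ (by rw [hk, hφ, h])))
        (fun h => h2 (hext _ _ (by rw [hk, hψ, h])))
      exact (congrArg σ₃ hk).trans ((hσ₃ k).trans ((congrArg α h3).trans hk.symm))

end Pool.Agent.D0H42.SF
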